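import Pool.Agent.Helper69.ST.Goals

/-!
# ST, packet SZ: the mean value inequality in the Hardy space
-/

open MeasureTheory Set Complex Metric Filter
open scoped ContDiff Topology ENNReal

namespace Pool.Agent.Helper20.ST.SZ

open Pool.Agent.Helper69.ST

/-- Cauchy-Schwarz on an interval. -/
theorem cs (f g : ℝ → ℂ) (hf : Measurable f) (hg : Measurable g)
    (hf2 : IntervalIntegrable (fun t => ‖f t‖ ^ 2) volume (-Real.pi) Real.pi)
    (hg2 : IntervalIntegrable (fun t => ‖g t‖ ^ 2) volume (-Real.pi) Real.pi) :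
    IntervalIntegrable (fun t => f t * g t) volume (-Real.pi) Real.pi ∧
    ‖∫ t in (-Real.pi)..Real.pi, f t * g t‖ ^ 2 ≤
      (∫ t in (-Real.pi)..Real.pi, ‖f t‖ ^ 2) * ∫ t in (-Real.pi)..Real.pi, ‖g t‖ ^ 2 := by
  have hpi : (-Real.pi) ≤ Real.pi := by linarith [Real.pi_pos]
  have hint : IntervalIntegrable (fun t => ‖f t‖ * ‖g t‖) volume (-Real.pi) Real.pi := by
    refine (hf2.add hg2).mono_fun (hf.norm.mul hg.norm).aestronglyMeasurable ?_
    refine Filter.Eventually.of_forall fun t => ?_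
    simp only [norm_mul, norm_norm]
    rw [Real.norm_of_nonneg (by positivity)]
    nlinarith [sq_nonneg (‖f t‖ - ‖g t‖), norm_nonneg (f t), norm_nonneg (g t)]
  have hint' : IntervalIntegrable (fun t => f t * g t) volume (-Real.pi) Real.pi := by
    refine hint.mono_fun (hf.mul hg).aestronglyMeasurable ?_
    refine Filter.Eventually.of_forall fun t => ?_
    simp
  refine ⟨hint', ?_⟩
  set A := ∫ t in (-Real.pi)..Real.pi, ‖f t‖ ^ 2
  set C := ∫ t in (-Real.pi)..Real.pi, ‖g t‖ ^ 2
  set B := ∫ t in (-Real.pi)..Real.pi, ‖f t‖ * ‖g t‖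
  have h1 : ‖∫ t in (-Real.pi)..Real.pi, f t * g t‖ ≤ B := by
    refine (intervalIntegral.norm_integral_le_integral_norm hpi).trans (le_of_eq ?_)
    simp only [norm_mul, B]
  have h2 : ∀ s : ℝ, 0 ≤ C * (s * s) + (-2 * B) * s + A := by
    intro s
    have h3 : 0 ≤ ∫ t in (-Real.pi)..Real.pi, (‖f t‖ - s * ‖g t‖) ^ 2 :=
      intervalIntegral.integral_nonneg hpi fun t _ => sq_nonneg _
    have h4 : ∫ t in (-Real.pi)..Real.pi, (‖f t‖ - s * ‖g t‖) ^ 2 =
        C * (s * s) + (-2 * B) * s + A := by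
      have h5 : ∀ t : ℝ, (‖f t‖ - s * ‖g t‖) ^ 2 =
          (s * s) * ‖g t‖ ^ 2 + ((-2 * s) * (‖f t‖ * ‖g t‖) + ‖f t‖ ^ 2) := by
        intro t; ring
      simp_rw [h5]
      rw [intervalIntegral.integral_add (hg2.const_mul _) ((hint.const_mul _).add hf2),
        intervalIntegral.integral_add (hint.const_mul _) hf2,
        intervalIntegral.integral_const_mul, intervalIntegral.integral_const_mul]
      ring
    rw [h4] at h3
    exact h3
  have h6 := discrim_le_zero h2
  rw [discrim] at h6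
  have h7 : 0 ≤ ‖∫ t in (-Real.pi)..Real.pi, f t * g t‖ := norm_nonneg _
  nlinarith [h1, h7]

theorem bound (β : ℕ → ℂ) (hβ : Summable (fun n => ‖β n‖ ^ 2)) (n : ℕ) :
    ‖β n‖ ≤ 1 + ∑' n : ℕ, ‖β n‖ ^ 2 := by
  have h := hβ.le_tsum n (fun j _ => sq_nonneg _)
  nlinarith [sq_nonneg (‖β n‖ - 1), norm_nonneg (β n)]

theorem hfun_diff (β : ℕ → ℂ) (hβ : Summable (fun n => ‖β n‖ ^ 2)) (r : ℝ) (hr0 : 0 ≤ r) (hr : r < 1) :
    DifferentiableOn ℂ (hfun 1 β) (ball 0 r) := by
  have h : DifferentiableOn ℂ (fun z => ∑' n : ℕ, β n * z ^ (1 * n)) (ball 0 r) := by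
    refine differentiableOn_tsum_of_summable_norm
      (u := fun n => (1 + ∑' n : ℕ, ‖β n‖ ^ 2) * r ^ n) ?_ ?_ isOpen_ball ?_
    · exact (summable_geometric_of_lt_one hr0 hr).mul_left _
    · intro n
      exact (differentiable_const _).differentiableOn.mul
        (differentiable_id.pow _).differentiableOn
    · intro n z hz
      rw [mem_ball_zero_iff] at hz
      rw [norm_mul, norm_pow, one_mul]
      have h1 := bound β hβ n
      gcongr
  exact h

/-- The mean value property. -/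
theorem mean (β : ℕ → ℂ) (hβ : Summable (fun n => ‖β n‖ ^ 2)) (c : ℂ) (hc : ‖c‖ < 1) (ρ : ℝ)
    (h0 : 0 < ρ) (h1 : ρ < 1) :
    ∫ t in (-Real.pi)..Real.pi, (1 - starRingEnd ℂ c * mob c (exp (t * I))) *
      hfun 1 β (ρ * exp (t * I)) = 2 * Real.pi * ((1 + ‖c‖ ^ 2 : ℝ) * β 0) := by
  set G : ℂ → ℂ := fun z => (1 - starRingEnd ℂ c * mob c z) * hfun 1 β (ρ * z) with hG
  have hden : ∀ z ∈ closedBall (0 : ℂ) 1, 1 - starRingEnd ℂ c * z ≠ 0 := by
    intro z hz h
    rw [mem_closedBall_zero_iff] at hz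
    have h2 : starRingEnd ℂ c * z = 1 := by
      have := sub_eq_zero.mp h
      exact this.symm
    have h3 : ‖starRingEnd ℂ c * z‖ = 1 := by rw [h2]; simp
    rw [norm_mul, RCLike.norm_conj] at h3
    nlinarith [norm_nonneg c, norm_nonneg z]
  have hdiff : ∀ z ∈ closedBall (0 : ℂ) 1, DifferentiableAt ℂ G z := by
    intro z hz
    have hz' := mem_closedBall_zero_iff.mp hz
    have e1 : DifferentiableAt ℂ (fun z => mob c z) z := by
      unfold mob
      exact (differentiableAt_id.sub_const _).div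
        ((differentiableAt_const _).sub (differentiableAt_id.const_mul _)) (hden z hz)
    have e2 : DifferentiableAt ℂ (fun z : ℂ => hfun 1 β (ρ * z)) z := by
      have e3 : DifferentiableAt ℂ (hfun 1 β) (ρ * z) := by
        have e4 := hfun_diff β hβ ((1 + ρ) / 2) (by linarith) (by linarith)
        refine e4.differentiableAt (isOpen_ball.mem_nhds ?_)
        rw [mem_ball_zero_iff, norm_mul, Complex.norm_real, Real.norm_of_nonneg h0.le]
        nlinarith [norm_nonneg z]
      exact e3.comp z (differentiableAt_id.const_mul _)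
    exact ((differentiableAt_const _).sub (e1.const_mul _)).mul e2
  have hci := Complex.circleIntegral_sub_center_inv_smul_of_differentiable_on_off_countable
    (c := (0 : ℂ)) (R := 1) (f := G) (s := ∅) one_pos countable_empty
    (fun z hz => (hdiff z hz).continuousAt.continuousWithinAt)
    (fun z hz => hdiff z (ball_subset_closedBall hz.1))
  have hG0 : G 0 = (1 + ‖c‖ ^ 2 : ℝ) * β 0 := by
    have e1 : hfun 1 β (ρ * 0) = β 0 := by
      unfold hfun
      rw [mul_zero, tsum_eq_single 0]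
      · simp
      · intro n hn
        simp [hn]
    have e2 : mob c 0 = -c := by simp [mob]
    rw [hG]
    simp only
    rw [e1, e2]
    congr 1
    rw [mul_neg, sub_neg_eq_add, ← Complex.normSq_eq_conj_mul_self, Complex.normSq_eq_norm_sq]
    push_cast
    ring
  have hper : Function.Periodic (fun t : ℝ => G (exp (t * I))) (2 * Real.pi) := by
    intro t
    simp only
    congr 1
    push_cast
    rw [add_mul, Complex.exp_add, Complex.exp_two_pi_mul_I, mul_one]
  have hcirc : (∮ z in C(0, 1), (z - 0)⁻¹ • G z) = I * ∫ t in (0 : ℝ)..2 * Real.pi, G (exp (t * I)) := by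
    rw [circleIntegral, ← intervalIntegral.integral_const_mul]
    refine intervalIntegral.integral_congr fun t _ => ?_
    simp only [deriv_circleMap, circleMap, sub_zero, zero_add, ofReal_one, one_mul, smul_eq_mul]
    have : exp (t * I) ≠ 0 := exp_ne_zero _
    field_simp
  have hshift : ∫ t in (-Real.pi)..Real.pi, G (exp (t * I)) = ∫ t in (0 : ℝ)..2 * Real.pi, G (exp (t * I)) := by
    have := hper.intervalIntegral_add_eq (-Real.pi) 0
    have e : -Real.pi + 2 * Real.pi = Real.pi := by ring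
    rw [e, zero_add] at this
    exact this
  have hfin : ∫ t in (-Real.pi)..Real.pi, G (exp (t * I)) = 2 * Real.pi * ((1 + ‖c‖ ^ 2 : ℝ) * β 0) := by
    rw [hshift]
    rw [hcirc, hG0, smul_eq_mul] at hci
    have hI : (I : ℂ) ≠ 0 := I_ne_zero
    apply mul_left_cancel₀ hI
    rw [hci]
    ring
  exact hfin

theorem norm_mob (c : ℂ) (hc : ‖c‖ < 1) (t : ℝ) : ‖mob c (exp (t * I))‖ = 1 := by
  have hw : ‖exp (t * I)‖ = 1 := Complex.norm_exp_ofReal_mul_I t
  have hne : 1 - starRingEnd ℂ c * exp (t * I) ≠ 0 := by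
    intro h
    have h2 : starRingEnd ℂ c * exp (t * I) = 1 := (sub_eq_zero.mp h).symm
    have h3 : ‖starRingEnd ℂ c * exp (t * I)‖ = 1 := by rw [h2]; simp
    rw [norm_mul, RCLike.norm_conj, hw, mul_one] at h3
    linarith
  have h4 : ‖exp (t * I) - c‖ = ‖1 - starRingEnd ℂ c * exp (t * I)‖ := by
    have e : exp (t * I) - c = exp (t * I) * starRingEnd ℂ (1 - starRingEnd ℂ c * exp (t * I)) := by
      have e5 : exp (t * I) * starRingEnd ℂ (exp (t * I)) = 1 := by
        rw [Complex.mul_conj, Complex.normSq_eq_norm_sq, hw]; simp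
      rw [map_sub, map_mul, map_one, Complex.conj_conj, mul_sub, mul_one]
      rw [show exp (t * I) * (c * starRingEnd ℂ (exp (t * I))) =
        c * (exp (t * I) * starRingEnd ℂ (exp (t * I))) by ring, e5, mul_one]
    conv_lhs => rw [e]
    rw [norm_mul, hw, one_mul, RCLike.norm_conj]
  rw [mob, norm_div, h4, div_self]
  rwa [norm_ne_zero_iff]

theorem t : S_SZ := by
  intro β H c hβ hH hc hmob
  have hpi : (-Real.pi) ≤ Real.pi := by linarith [Real.pi_pos]
  set u : ℝ → ℂ := fun t => 1 - starRingEnd ℂ c * mob c (exp (t * I)) with hu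
  have hucont : Continuous u := by
    have hd : ∀ t : ℝ, 1 - starRingEnd ℂ c * exp (t * I) ≠ 0 := by
      intro t h
      have h2 : starRingEnd ℂ c * exp (t * I) = 1 := (sub_eq_zero.mp h).symm
      have h3 : ‖starRingEnd ℂ c * exp (t * I)‖ = 1 := by rw [h2]; simp
      rw [norm_mul, RCLike.norm_conj, Complex.norm_exp_ofReal_mul_I, mul_one] at h3
      linarith
    have hm : Continuous fun t : ℝ => mob c (exp (t * I)) := by
      unfold mob
      refine Continuous.div ?_ ?_ hd
      · fun_prop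
      · fun_prop
    exact continuous_const.sub (continuous_const.mul hm)
  have husq : ∀ t : ℝ, ‖u t‖ ^ 2 = 1 + ‖c‖ ^ 2 - 2 * (starRingEnd ℂ c * mob c (exp (t * I))).re := by
    intro t
    have h1 : ‖starRingEnd ℂ c * mob c (exp (t * I))‖ ^ 2 = ‖c‖ ^ 2 := by
      rw [norm_mul, RCLike.norm_conj, norm_mob c hc t, mul_one]
    rw [← h1]
    simp only [hu]
    rw [← Complex.normSq_eq_norm_sq, ← Complex.normSq_eq_norm_sq, Complex.normSq_sub]
    simp
  have hubd : ∀ t : ℝ, ‖u t‖ ^ 2 ≤ 4 := by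
    intro t
    have h1 : ‖u t‖ ≤ 2 := by
      refine (norm_sub_le _ _).trans ?_
      rw [norm_one, norm_mul, RCLike.norm_conj, norm_mob c hc t, mul_one]
      linarith
    nlinarith [norm_nonneg (u t)]
  have hu2 : IntervalIntegrable (fun t => ‖u t‖ ^ 2) volume (-Real.pi) Real.pi :=
    (hucont.norm.pow 2).intervalIntegrable _ _
  have huH2 : IntervalIntegrable (fun t => ‖u t * H t‖ ^ 2) volume (-Real.pi) Real.pi := by
    refine (hH.sq.const_mul 4).mono_fun
      (((hucont.measurable.mul hH.meas).norm.pow_const 2).aestronglyMeasurable) ?_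
    refine Filter.Eventually.of_forall fun t => ?_
    simp only [norm_mul, norm_pow, norm_norm, mul_pow]
    rw [Real.norm_of_nonneg (by norm_num : (0 : ℝ) ≤ 4)]
    have := hubd t
    nlinarith [sq_nonneg ‖H t‖]
  -- the integral of u H
  have hlim : ∫ t in (-Real.pi)..Real.pi, u t * H t = 2 * Real.pi * ((1 + ‖c‖ ^ 2 : ℝ) * β 0) := by
    set L : ℂ := 2 * Real.pi * ((1 + ‖c‖ ^ 2 : ℝ) * β 0)
    set K := ∫ t in (-Real.pi)..Real.pi, ‖u t‖ ^ 2
    have hK : 0 ≤ K := intervalIntegral.integral_nonneg hpi fun t _ => sq_nonneg _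
    have hbd : ∀ᶠ ρ : ℝ in 𝓝[<] 1, ‖L - ∫ t in (-Real.pi)..Real.pi, u t * H t‖ ^ 2 ≤
        K * ∫ t in (-Real.pi)..Real.pi, ‖hfun 1 β (ρ * exp (t * I)) - H t‖ ^ 2 := by
      have hev : ∀ᶠ ρ : ℝ in 𝓝[<] 1, 0 < ρ ∧ ρ < 1 := by
        refine Ioo_mem_nhdsLT (by norm_num : (0 : ℝ) < 1)
      filter_upwards [hev] with ρ hρ
      have hcont : Continuous fun t : ℝ => hfun 1 β (ρ * exp (t * I)) := by
        have e4 := (hfun_diff β hβ ((1 + ρ) / 2) (by linarith) (by linarith)).continuousOn
        refine e4.comp_continuous (by fun_prop) fun t => ?_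
        rw [mem_ball_zero_iff, norm_mul, Complex.norm_exp_ofReal_mul_I, Complex.norm_real,
          Real.norm_of_nonneg hρ.1.le]
        linarith
      have hm : Measurable fun t : ℝ => hfun 1 β (ρ * exp (t * I)) - H t :=
        hcont.measurable.sub hH.meas
      have hc2 : IntervalIntegrable (fun t => ‖hfun 1 β (ρ * exp (t * I))‖ ^ 2) volume
          (-Real.pi) Real.pi := (hcont.norm.pow 2).intervalIntegrable _ _
      have hd2 : IntervalIntegrable (fun t => ‖hfun 1 β (ρ * exp (t * I)) - H t‖ ^ 2) volume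
          (-Real.pi) Real.pi := by
        refine ((hc2.const_mul 2).add (hH.sq.const_mul 2)).mono_fun
          (hm.norm.pow_const 2).aestronglyMeasurable ?_
        refine Filter.Eventually.of_forall fun t => ?_
        simp only [norm_pow, norm_norm]
        rw [Real.norm_of_nonneg (by positivity)]
        have h1 := norm_sub_le (hfun 1 β (ρ * exp (t * I))) (H t)
        have h2 := norm_nonneg (hfun 1 β (ρ * exp (t * I)) - H t)
        nlinarith [sq_nonneg (‖hfun 1 β (ρ * exp (t * I))‖ - ‖H t‖),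
          norm_nonneg (hfun 1 β (ρ * exp (t * I))), norm_nonneg (H t)]
      have hcs := cs u (fun t => hfun 1 β (ρ * exp (t * I)) - H t) hucont.measurable hm hu2 hd2
      have hmean := mean β hβ c hc ρ hρ.1 hρ.2
      have hsub : ∫ t in (-Real.pi)..Real.pi, u t * (hfun 1 β (ρ * exp (t * I)) - H t) =
          L - ∫ t in (-Real.pi)..Real.pi, u t * H t := by
        have hL : L = ∫ t in (-Real.pi)..Real.pi, u t * hfun 1 β (ρ * exp (t * I)) := hmean.symm
        rw [hL, ← intervalIntegral.integral_sub]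
        · refine intervalIntegral.integral_congr fun t _ => ?_
          simp only [hu]
          ring
        · exact (hucont.mul hcont).intervalIntegrable _ _
        · exact (cs u H hucont.measurable hH.meas hu2 hH.sq).1
      rw [hsub] at hcs
      exact hcs.2
    have hto : Tendsto (fun ρ : ℝ => K * ∫ t in (-Real.pi)..Real.pi,
        ‖hfun 1 β (ρ * exp (t * I)) - H t‖ ^ 2) (𝓝[<] 1) (𝓝 (K * 0)) := hH.cv.const_mul K
    rw [mul_zero] at hto
    have hle := ge_of_tendsto hto hbd
    have h0 : ‖L - ∫ t in (-Real.pi)..Real.pi, u t * H t‖ = 0 := by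
      have := sq_nonneg ‖L - ∫ t in (-Real.pi)..Real.pi, u t * H t‖
      exact pow_eq_zero_iff (two_ne_zero) |>.mp (le_antisymm hle this)
    rw [norm_eq_zero, sub_eq_zero] at h0
    exact h0.symm
  -- the mass
  have hmass : ∫ t in (-Real.pi)..Real.pi, ‖u t * H t‖ ^ 2 =
      (1 + ‖c‖ ^ 2) * (2 * Real.pi * ∑' n : ℕ, ‖β n‖ ^ 2) := by
    have hmi : IntervalIntegrable (fun t : ℝ => mob c (exp (t * I)) * ((‖H t‖ ^ 2 : ℝ) : ℂ)) volume
        (-Real.pi) Real.pi := by
      have hmm : Measurable fun t : ℝ => mob c (exp (t * I)) := by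
        unfold mob
        fun_prop
      refine hH.sq.mono_fun (hmm.mul ((hH.meas.norm.pow_const 2).complex_ofReal)).aestronglyMeasurable ?_
      refine Filter.Eventually.of_forall fun t => ?_
      simp only [norm_mul, norm_mob c hc t, one_mul]
      rw [Complex.norm_real]
    have h1 : ∀ t : ℝ, ‖u t * H t‖ ^ 2 = (1 + ‖c‖ ^ 2) * ‖H t‖ ^ 2 -
        2 * (starRingEnd ℂ c * (mob c (exp (t * I)) * ((‖H t‖ ^ 2 : ℝ) : ℂ))).re := by
      intro t
      rw [norm_mul, mul_pow, husq t, ← mul_assoc, Complex.re_mul_ofReal]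
      ring
    simp_rw [h1]
    have hmi2 : IntervalIntegrable (fun t : ℝ => (starRingEnd ℂ c * (mob c (exp (t * I)) *
        ((‖H t‖ ^ 2 : ℝ) : ℂ))).re) volume (-Real.pi) Real.pi := by
      have h5 := hmi.const_mul (starRingEnd ℂ c)
      rw [intervalIntegrable_iff] at h5 ⊢
      exact h5.re
    have hre : ∫ t in (-Real.pi)..Real.pi, (starRingEnd ℂ c * (mob c (exp (t * I)) *
        ((‖H t‖ ^ 2 : ℝ) : ℂ))).re = 0 := by
      have h6 : ∫ t in (-Real.pi)..Real.pi, starRingEnd ℂ c * (mob c (exp (t * I)) *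
          ((‖H t‖ ^ 2 : ℝ) : ℂ)) = 0 := by
        rw [intervalIntegral.integral_const_mul, hmob, mul_zero]
      have h7 := congrArg Complex.re h6
      rw [Complex.zero_re] at h7
      rw [← h7]
      rw [intervalIntegral.integral_of_le hpi, intervalIntegral.integral_of_le hpi]
      have h8 := (hmi.const_mul (starRingEnd ℂ c))
      rw [intervalIntegrable_iff_integrableOn_Ioc_of_le hpi] at h8
      exact integral_re h8
    rw [intervalIntegral.integral_sub (hH.sq.const_mul _) (hmi2.const_mul _),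
      intervalIntegral.integral_const_mul, intervalIntegral.integral_const_mul, hre, hH.tot]
    ring
  have hcs2 := (cs (fun _ => 1) (fun t => u t * H t) measurable_const
    (hucont.measurable.mul hH.meas) (by simp) huH2).2
  simp only [one_mul, norm_one, one_pow] at hcs2
  rw [hlim, hmass, intervalIntegral.integral_const] at hcs2
  have hn : ‖(2 * Real.pi * ((1 + ‖c‖ ^ 2 : ℝ) * β 0) : ℂ)‖ ^ 2 =
      (2 * Real.pi) ^ 2 * (1 + ‖c‖ ^ 2) ^ 2 * ‖β 0‖ ^ 2 := by
    rw [norm_mul, norm_mul, norm_mul, Complex.norm_real, Complex.norm_real,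
      Real.norm_of_nonneg Real.pi_pos.le, Real.norm_of_nonneg (by positivity)]
    simp only [Complex.norm_ofNat]
    ring
  rw [hn, smul_eq_mul] at hcs2
  have hp := Real.pi_pos
  set a := ∑' n : ℕ, ‖β n‖ ^ 2
  have hk : 0 < 1 + ‖c‖ ^ 2 := by positivity
  have h9 : ((2 * Real.pi) ^ 2 * (1 + ‖c‖ ^ 2)) * (‖β 0‖ ^ 2 * (1 + ‖c‖ ^ 2)) ≤
      ((2 * Real.pi) ^ 2 * (1 + ‖c‖ ^ 2)) * a := by
    calc _ = (2 * Real.pi) ^ 2 * (1 + ‖c‖ ^ 2) ^ 2 * ‖β 0‖ ^ 2 := by ring
      _ ≤ (Real.pi - -Real.pi) * 1 * ((1 + ‖c‖ ^ 2) * (2 * Real.pi * a)) := hcs2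
      _ = _ := by ring
  exact le_of_mul_le_mul_left h9 (by positivity)

end Pool.Agent.Helper20.ST.SZ
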